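import Mathlib

set_option autoImplicit false

namespace Pool.Agent.Results.MP_405fb9_co.Exists

/-- `D` is a dominating set of the subgraph of `G` induced on `U` -/
def Dom {V : Type} (G : SimpleGraph V) (U D : Finset V) : Prop :=
  D ⊆ U ∧ ∀ v ∈ U, v ∉ D → ∃ u ∈ D, G.Adj u v

/-- the domination number of the subgraph of `G` induced on `U` -/
noncomputable def gam {V : Type} (G : SimpleGraph V) (U : Finset V) : ℕ :=
  sInf {k | ∃ D, Dom G U D ∧ D.card = k}

/-- `D` is a minimum dominating set of the subgraph induced on `U` -/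
def GSet {V : Type} (G : SimpleGraph V) (U D : Finset V) : Prop := Dom G U D ∧ D.card = gam G U

def G : SimpleGraph (Fin 8) := SimpleGraph.fromRel fun u v => (u, v) ∈
  [(2, 3), (1, 4), (3, 4), (0, 5), (1, 5), (2, 5), (0, 6), (2, 6), (4, 6), (0, 7), (1, 7), (3, 7)]

instance : DecidableRel G.Adj := fun u v => by unfold G; infer_instance
instance (U D : Finset (Fin 8)) : Decidable (Dom G U D) := by unfold Dom; infer_instance

lemma gam_eq (U D : Finset (Fin 8)) (h : Dom G U D) (h' : ∀ E, Dom G U E → D.card ≤ E.card) :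
    gam G U = D.card :=
  IsLeast.csInf_eq ⟨⟨D, h, rfl⟩, by rintro _ ⟨E, hE, rfl⟩; exact h' E hE⟩

lemma a : ∀ E, Dom G Finset.univ E → 3 ≤ E.card := by decide +kernel
lemma b : ∀ v, ∃ x y, Dom G (Finset.univ.erase v) {x, y} ∧ ∀ E, Dom G (Finset.univ.erase v) E →
    ({x, y} : Finset (Fin 8)).card < E.card ∨ E = {x, y} := by decide +kernel
lemma c : ∀ u v, u ≠ v → ∃ x y, Dom G (Finset.univ \ {u, v}) {x, y} := by decide +kernel

theorem result : ∃ (n : ℕ) (G : SimpleGraph (Fin n)), 3 ≤ n ∧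
    (∃ D E, D ≠ E ∧ GSet G Finset.univ D ∧ GSet G Finset.univ E) ∧
    (∀ v, ∃! D, GSet G (Finset.univ.erase v) D) ∧
    ∀ S : Finset (Fin n), S.card = 2 → gam G (Finset.univ \ S) < gam G Finset.univ := by
  have g : gam G Finset.univ = 3 := gam_eq _ {0, 1, 3} (by decide +kernel) a
  refine ⟨8, G, by norm_num, ⟨{0, 1, 3}, {0, 1, 2}, by decide, ⟨by decide +kernel, g.symm⟩,
    ⟨by decide +kernel, g.symm⟩⟩, fun v => ?_, fun S hS => ?_⟩
  · obtain ⟨x, y, h1, h2⟩ := b v
    have e := gam_eq _ _ h1 fun E hE => (h2 E hE).elim le_of_lt fun e => by rw [e]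
    exact ⟨{x, y}, ⟨h1, e.symm⟩, fun E hE => (h2 E hE.1).resolve_left (by rw [hE.2, e]; omega)⟩
  · obtain ⟨u, v, huv, rfl⟩ := Finset.card_eq_two.1 hS
    obtain ⟨x, y, h⟩ := c u v huv
    have h1 : gam G (Finset.univ \ {u, v}) ≤ ({x, y} : Finset (Fin 8)).card := Nat.sInf_le ⟨_, h, rfl⟩
    have h2 : ({x, y} : Finset (Fin 8)).card ≤ 2 := Finset.card_le_two
    omega

end Pool.Agent.Results.MP_405fb9_co.Exists
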